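import Pool.Agent.W886.AM.Stm0

/-!
# Stages, where the old oracle is not changed in the new region
-/

set_option autoImplicit false

namespace Pool.Agent.W538.AM

open Filter
open Pool.Agent.NPC Pool.Agent.H622R2
open Pool.Agent.H620R2.Gauge
open Pool.Agent.W900.RB Pool.Agent.W886.AM
open Pool.Agent.W900.CH (Close finite_diff)

/-- Stages: infinitely many tasks are carried out by few changes. -/
theorem task : S_STG := by
  intro g hg O W cost b N₀ hW
  have hstep : ∀ (k : ℕ) (B : Oracle) (N T : ℕ), ∃ (n : ℕ) (B' : Oracle), N ≤ n ∧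
      (∀ y ∉ Region n, B' y = B y) ∧ {y | B y ≠ B' y}.Finite ∧
      {y | B y ≠ B' y}.ncard ≤ (cost k).eval n ∧
      ((∀ y ∈ Region n, B y = O y) → ∀ B'' : Oracle,
        (∀ y : List Bool, y.length ≤ (b k).eval n → B'' y = B' y) → W k n B'') ∧
      ∀ m ≥ n, ((T + (cost k).eval n : ℕ) : ℝ) ≤ g m := by
    intro k B N T
    have h1 : ∀ᶠ n : ℕ in atTop, T + (cost k).eval n ≤ n ^ ((cost k).natDegree + 1) := by
      have h2 : ∀ᶠ n : ℕ in atTop, T + (cost k).eval 1 ≤ n := eventually_ge_atTop _
      filter_upwards [h2, eventually_ge_atTop 1] with n h3 h4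
      have h5 : (cost k).eval n ≤ (cost k).eval 1 * n ^ (cost k).natDegree := by
        rw [Polynomial.eval_eq_sum_range, Polynomial.eval_eq_sum_range, Finset.sum_mul]
        apply Finset.sum_le_sum
        intro i hi
        rw [one_pow, mul_one]
        apply Nat.mul_le_mul_left
        exact Nat.pow_le_pow_right h4 (by have := Finset.mem_range.1 hi; omega)
      have h6 : 1 ≤ n ^ (cost k).natDegree := Nat.one_le_pow _ _ h4
      calc T + (cost k).eval n ≤ T * n ^ (cost k).natDegree +
            (cost k).eval 1 * n ^ (cost k).natDegree :=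
            Nat.add_le_add (Nat.le_mul_of_pos_right _ h6) h5
        _ = (T + (cost k).eval 1) * n ^ (cost k).natDegree := by ring
        _ ≤ n * n ^ (cost k).natDegree := Nat.mul_le_mul_right _ h3
        _ = n ^ ((cost k).natDegree + 1) := by ring
    obtain ⟨n, h2, h3, h4, h5⟩ := ((hg ((cost k).natDegree + 1)).and_eventually
      (h1.and ((hW k).and (eventually_ge_atTop N)))).exists
    have h10 : ∀ m ≥ n, ((T + (cost k).eval n : ℕ) : ℝ) ≤ g m := by
      intro m hm
      refine le_trans ?_ (h2 m hm).le
      exact_mod_cast h3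
    by_cases hB : ∀ y ∈ Region n, B y = O y
    · obtain ⟨B', h6, h7, h8, h9⟩ := h4 B hB
      exact ⟨n, B', h5, h6, h7, h8, fun _ => h9, h10⟩
    · refine ⟨n, B, h5, fun _ _ => rfl, ?_, ?_, fun h => absurd h hB, h10⟩
      · simp
      · simp
  choose ns Bs h1 h2 h3 h4 h5 h6 using hstep
  -- the states: the oracle, the bound for the next number, the number of changes
  let F : ℕ → Oracle × ℕ × ℕ := fun k => Nat.rec (O, N₀, 0) (fun k s =>
    (Bs k s.1 s.2.1 s.2.2, max (ns k s.1 s.2.1 s.2.2 + 1) ((b k).eval (ns k s.1 s.2.1 s.2.2) + 1),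
      s.2.2 + (cost k).eval (ns k s.1 s.2.1 s.2.2))) k
  let n : ℕ → ℕ := fun k => ns k (F k).1 (F k).2.1 (F k).2.2
  have hF0 : F 0 = (O, N₀, 0) := rfl
  have hF1 : ∀ k, (F (k + 1)).1 = Bs k (F k).1 (F k).2.1 (F k).2.2 := fun k => rfl
  have hF2 : ∀ k, (F (k + 1)).2.1 = max (n k + 1) ((b k).eval (n k) + 1) := fun k => rfl
  have hF3 : ∀ k, (F (k + 1)).2.2 = (F k).2.2 + (cost k).eval (n k) := fun k => rfl
  have hnN : ∀ k, (F k).2.1 ≤ n k := fun k => h1 _ _ _ _
  have hlt : ∀ k, n k < n (k + 1) := by
    intro k
    have := hnN (k + 1)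
    rw [hF2] at this
    have := le_max_left (n k + 1) ((b k).eval (n k) + 1)
    omega
  have hmono : StrictMono n := strictMono_nat_of_lt_succ hlt
  have hid : ∀ k, k ≤ n k := fun k => hmono.le_apply
  -- the oracle is not changed in the later regions
  have hclean : ∀ k, ∀ m ≥ (F k).2.1, ∀ y ∈ Region m, (F k).1 y = O y := by
    intro k
    induction k with
    | zero => intro m _ y _; rfl
    | succ k ih =>
      intro m hm y hy
      have h7 : n k + 1 ≤ m := by
        rw [hF2] at hm
        exact (le_max_left _ _).trans hm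
      rw [hF1, h2 (k) (F k).1 (F k).2.1 (F k).2.2 y (fun hr => by
        have h8 : n k = m := region_inj hr hy
        omega)]
      exact ih m ((hnN k).trans (by omega)) y hy
  -- later oracles agree on short strings
  have hagree1 : ∀ (j : ℕ) (y : List Bool), y.length ≤ n j → (F (j + 1)).1 y = (F j).1 y := by
    intro j y hy
    rw [hF1]
    apply h2
    intro hr
    have := region_len hr
    change n j < y.length at this
    omega
  have hagree : ∀ (j i : ℕ) (y : List Bool), y.length ≤ n j → (F (j + i)).1 y = (F j).1 y := by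
    intro j i y hy
    induction i with
    | zero => rfl
    | succ i ih =>
      rw [← ih, ← add_assoc]
      apply hagree1
      exact hy.trans (hmono.monotone (Nat.le_add_right j i))
  set A : Oracle := fun y => (F y.length).1 y with hA
  have hAj : ∀ (j : ℕ) (y : List Bool), y.length ≤ n j → A y = (F j).1 y := by
    intro j y hy
    rw [hA]
    dsimp only
    rcases le_total y.length j with h | h
    · obtain ⟨i, rfl⟩ := Nat.exists_eq_add_of_le h
      rw [hagree y.length i y (hid _)]
    · obtain ⟨i, hi⟩ := Nat.exists_eq_add_of_le h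
      rw [hi, hagree j i y hy]
  have hdist : ∀ k m, Pool.Agent.W900.CH.dist O (F k).1 m ≤ (F k).2.2 := by
    intro k m
    induction k with
    | zero =>
      have : Pool.Agent.W900.CH.dist O (F 0).1 m = 0 := by
        unfold Pool.Agent.W900.CH.dist
        rw [hF0]
        simp
      rw [this]
      exact Nat.zero_le _
    | succ k ih =>
      rw [hF3]
      refine (dist_triangle O (F k).1 (F (k + 1)).1 m (T := (cost k).eval (n k)) ?_ ?_).trans
        (Nat.add_le_add_right ih _)
      · exact h3 k (F k).1 (F k).2.1 (F k).2.2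
      · exact h4 k (F k).1 (F k).2.1 (F k).2.2
  refine ⟨A, n, hmono, ?_, ?_, ?_, ?_⟩
  · intro k
    have h7 : N₀ ≤ n 0 := hnN 0
    exact h7.trans (hmono.monotone (Nat.zero_le k))
  · -- few changes
    unfold Close
    filter_upwards [eventually_ge_atTop (n 0)] with m hm
    obtain ⟨k, hk1, hk2⟩ : ∃ k, n k ≤ m ∧ m < n (k + 1) := by
      have hex : ∃ j, m < n j := ⟨m + 1, lt_of_lt_of_le (Nat.lt_succ_self m) (hid _)⟩
      have hpos : 0 < Nat.find hex := by
        rw [Nat.pos_iff_ne_zero]
        intro h
        have := Nat.find_spec hex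
        rw [h] at this
        omega
      refine ⟨Nat.find hex - 1, ?_, ?_⟩
      · have := Nat.find_min hex (m := Nat.find hex - 1) (by omega)
        omega
      · have := Nat.find_spec hex
        rwa [Nat.sub_add_cancel hpos]
    have h7 : Pool.Agent.W900.CH.dist O A m = Pool.Agent.W900.CH.dist O (F (k + 1)).1 m := by
      unfold Pool.Agent.W900.CH.dist
      congr 1
      ext y
      simp only [Set.mem_ofPred_eq]
      constructor
      · rintro ⟨h8, h9⟩
        exact ⟨h8, by rw [← hAj (k + 1) y (by omega)]; exact h9⟩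
      · rintro ⟨h8, h9⟩
        exact ⟨h8, by rw [hAj (k + 1) y (by omega)]; exact h9⟩
    rw [h7]
    refine le_trans ?_ (h6 k (F k).1 (F k).2.1 (F k).2.2 m hk1)
    exact_mod_cast hdist (k + 1) m
  · -- outside of the regions nothing is changed
    intro y hy
    have h7 : ∀ j, (F j).1 y = O y := by
      intro j
      induction j with
      | zero => rfl
      | succ j ih =>
        rw [← ih, hF1]
        exact h2 _ _ _ _ y (hy j)
    exact h7 _
  · intro k
    apply h5 k (F k).1 (F k).2.1 (F k).2.2 (hclean k _ (hnN k))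
    intro y hy
    have h7 : y.length ≤ n (k + 1) := by
      have h8 := hnN (k + 1)
      rw [hF2] at h8
      have h9 := le_max_right (n k + 1) ((b k).eval (n k) + 1)
      have h10 : y.length ≤ (b k).eval (n k) := hy
      omega
    rw [hAj (k + 1) y h7]

end Pool.Agent.W538.AM
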